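import Pool.Agent.Q138.Dodecagon

set_option autoImplicit false

namespace Pool.Agent.Results.MP_ab14aa_co.FlexibleDodecagon

open Q138.PlaneRigid

/-- `G` is a braced polygon graph on the vertices `0, 1, …, n - 1`: it has at least three vertices
and contains the Hamiltonian cycle `0, 1, …, n - 1, 0`. -/
def IsBracedPolygon {n : ℕ} [NeZero n] (G : SimpleGraph (Fin n)) : Prop :=
  3 ≤ n ∧ ∀ i, G.Adj i (i + 1)

/-- The cross product `(b - a) × (c - a)`; it is positive if `c` lies strictly to the left of the
directed line from `a` to `b`. -/
def cross (a b c : E2) : ℝ := (b 0 - a 0) * (c 1 - a 1) - (b 1 - a 1) * (c 0 - a 0)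

/-- The points `p 0, …, p (n - 1)`, in this cyclic order, are the vertices of a strictly convex
polygon: all other vertices lie strictly to the left of every directed side (counterclockwise
order), or all other vertices lie strictly to the right of every directed side (clockwise
order). -/
def StrictlyConvex {n : ℕ} [NeZero n] (p : Fin n → E2) : Prop :=
  (∀ i j, j ≠ i → j ≠ i + 1 → 0 < cross (p i) (p (i + 1)) (p j)) ∨
    ∀ i j, j ≠ i → j ≠ i + 1 → cross (p i) (p (i + 1)) (p j) < 0

/-- There are a generically rigid braced polygon graph (on 12 vertices) and a strictly convex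
configuration of it that is a flexible bar framework in the plane. -/
theorem result :
    ∃ (n : ℕ) (_ : NeZero n) (G : SimpleGraph (Fin n)) (p : Fin n → E2),
      IsBracedPolygon G ∧ GenericallyRigid G ∧ StrictlyConvex p ∧ Flexible G p :=
  ⟨12, inferInstance, Q138.Dodecagon.G, Q138.Dodecagon.p0, ⟨by norm_num, Q138.Dodecagon.side⟩,
    Q138.Dodecagon.G_rigid, Or.inl Q138.Dodecagon.convex, Q138.Dodecagon.flexible⟩

end Pool.Agent.Results.MP_ab14aa_co.FlexibleDodecagon
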